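import Pool.Agent.Y922.ZF.Inst

/-!
# `π`, `ζ(3)` and `γ` as values of `π^s`, `Γ(s)`, `ψ(s)`, `ζ(s)` and derivatives: almost all points and tuples

At `s = 3` the functions `π^s`, `ψ(s) = Γ'(s)/Γ(s)`, `ζ(s)` take the values `π³`, `3/2 - γ`, `ζ(3)`. We show that for
almost all points `s` (tuples of points) of number fields of bounded degree the values of these functions and of their
derivatives are independent, in the sense of (approximate) algebraic relations of bounded degree and polynomially bounded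
height, over the field generated by arbitrary complex constants. The proof contains the algebraic independence over
`ℂ(s)` of `π^s`, of the Gamma function with all its derivatives, and of the zeta function with all its derivatives.
-/

set_option autoImplicit false

open NumberField

namespace Pool.Agent.Results.MP_e48a95_nt.AlmostAllPoints

/-- The elements of the number field `F` with image in `L` which are quotients of two integers of `F` all of whose
conjugates have absolute value at most `T`. -/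
def Points (F : Type) [Field F] [NumberField F] (ι : F →+* ℂ) (L : Set ℂ) (T : ℝ) : Set F :=
  {x | ι x ∈ L ∧ ∃ a b : 𝓞 F, b ≠ 0 ∧ (∀ φ : F →+* ℂ, ‖φ a‖ ≤ T ∧ ‖φ b‖ ≤ T) ∧ x = a / b}

/-- The numbers `β_l^s`, `Γ(s)`, `ψ(s), ψ'(s), …, ψ^(w-1)(s)` and `ζ(s), ζ'(s), …, ζ^(w-1)(s)`. -/
noncomputable def values {h : ℕ} (β : Fin h → ℝ) (w : ℕ) (s : ℂ) : Fin h ⊕ (Unit ⊕ (Fin w ⊕ Fin w)) → ℂ
  | Sum.inl l => (β l : ℂ) ^ s
  | Sum.inr (Sum.inl _) => Complex.Gamma s
  | Sum.inr (Sum.inr (Sum.inl k)) => iteratedDeriv k Complex.digamma s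
  | Sum.inr (Sum.inr (Sum.inr k)) => iteratedDeriv k riemannZeta s

/-- The `n`-tuples `t` of points of `F` for which there is a polynomial `P` of degree at most `d` in each variable, with
coefficients of the form `∑ ξ_i ι(c_i)`, where the `c_i` are integers of `F` all of whose conjugates have absolute value
at most `T ^ A`, such that the value of `P` at the numbers `values β w (t_j)`, `j ≤ n`, is at most `T ^ (-B)` times the
absolute value of some nonzero coefficient of `P`. -/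
def Exceptional {h : ℕ} (β : Fin h → ℝ) (w n d : ℕ) {g : ℕ} (F : Type) [Field F] [NumberField F] (ι : F →+* ℂ)
    (ξ : Fin g → ℂ) (L : Set ℂ) (A B T : ℝ) : Set (Fin n → F) :=
  {t | (∀ j, t j ∈ Points F ι L T) ∧ ∃ P : MvPolynomial (Fin n × (Fin h ⊕ (Unit ⊕ (Fin w ⊕ Fin w)))) ℂ,
    (∀ x, P.degreeOf x ≤ d) ∧
    (∀ s, ∃ c : Fin g → 𝓞 F, (∀ i (φ : F →+* ℂ), ‖φ (c i)‖ ≤ T ^ A) ∧ P.coeff s = ∑ i, ξ i * ι (c i)) ∧
    ∃ s₀, P.coeff s₀ ≠ 0 ∧
      ‖MvPolynomial.aeval (fun x : Fin n × (Fin h ⊕ (Unit ⊕ (Fin w ⊕ Fin w))) => values β w (ι (t x.1)) x.2) P‖ ≤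
        T ^ (-B) * ‖P.coeff s₀‖}

/-- Let `β_1, …, β_h` be positive real numbers such that `∏ β_l ^ v_l` is irrational for all nonzero `v ∈ ℤ^h` (for
instance `h = 1` and `β_1 = π`, see `Y922.ZF.pi_ok`), and let `L` be a compact set in `ℂ` which contains none of `1, 0, -1, -2, …`. For all
`w`, `m`, `n`, `g`, `d`, `A` and `ε > 0` there are `B`, `C`, `T₀` such that for every number field `F` of degree at most
`m`, every embedding of `F` in `ℂ`, all complex numbers `ξ_1, …, ξ_g` and all `T ≥ T₀` the number of exceptional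
`n`-tuples is at most `C T^ε N^(n - 1)`, where `N` is the number of points. -/
theorem result {h : ℕ} (β : Fin h → ℝ) (hβ0 : ∀ l, 0 < β l)
    (hβ : ∀ v : Fin h → ℤ, (∃ x : ℚ, ∏ l, β l ^ v l = x) → v = 0) (w m n g d : ℕ) (L : Set ℂ) (hL : IsCompact L)
    (hL' : ∀ s ∈ L, s ≠ 1 ∧ ∀ k : ℕ, s ≠ -k) (A ε : ℝ) (hε : 0 < ε) :
    ∃ B C T₀ : ℝ, ∀ (F : Type) [Field F] [NumberField F], Module.finrank ℚ F ≤ m → ∀ (ι : F →+* ℂ) (ξ : Fin g → ℂ)
      (T : ℝ), T₀ ≤ T → (Exceptional β w n d F ι ξ L A B T).Finite ∧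
        ((Exceptional β w n d F ι ξ L A B T).ncard : ℝ) ≤ C * T ^ ε * ((Points F ι L T).ncard : ℝ) ^ (n - 1) := by
  classical
  obtain ⟨B, C, T₀, hC, hT₀, H⟩ := Y124.excNF (h := Fin g) m n d (Y922.ZF.vA β w) L (fun g' => Y922.ZF.oneA g' β hβ0 hβ w L hL hL') A ε hε
  refine ⟨B, C, T₀, fun F _ _ hF ι ξ T hT => ?_⟩
  have hT0 : 0 ≤ T := by linarith
  have hP : Points F ι L T = {x : F | Y120.HtLe F T x ∧ ι x ∈ L} := by
    ext x
    constructor
    · rintro ⟨h1, a, b, hb, hab, hx⟩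
      exact ⟨⟨a, b, hb, Y120.house_le F hT0 fun φ => (hab φ).1, Y120.house_le F hT0 fun φ => (hab φ).2, hx⟩, h1⟩
    · rintro ⟨⟨a, b, hb, ha, hb', hx⟩, h1⟩
      exact ⟨h1, a, b, hb, fun φ => ⟨(Y120.house_ge F _ φ).trans ha, (Y120.house_ge F _ φ).trans hb'⟩, hx⟩
  have hval : ∀ (s : ℂ) y, values β w s y = (Y922.ZF.vA β w) s y := by
    intro s y
    rcases y with l | (x | (k | k)) <;> rfl
  have hsub : Exceptional β w n d F ι ξ L A B T ⊆ Y124.ExcNF n d F ι ξ ((Y922.ZF.vA β w)) L A B T := by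
    rintro t ⟨ht, P, hPd, hPc, s₀, hs₀, hs⟩
    refine ⟨fun j => ?_, P, hPd, hPc, s₀, hs₀, ?_⟩
    · have h1 := ht j
      rw [hP] at h1
      exact h1
    · simp only [hval] at hs
      exact hs
  obtain ⟨h1, h2⟩ := H F hF ι ξ T hT
  refine ⟨h1.subset hsub, ?_⟩
  rw [hP]
  exact le_trans (by exact_mod_cast Set.ncard_le_ncard hsub h1) h2

end Pool.Agent.Results.MP_e48a95_nt.AlmostAllPoints
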