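import Mathlib
import Pool.Agent.TH796.Fin.Fin8
import Pool.Agent.W170.Z3.Z

set_option autoImplicit false

/-!
# `ζ(3)`, `ζ(3) / π³` and numbers of low digit complexity in two independent bases

Let `S` be an infinite set of integers. For a set `A` of bases let `K_A` be the field generated by
all real numbers with `O(n)` different blocks of `n` digits, `n ∈ S`, in some base of `A`. It
contains `ℚ`.

(1) If `A` and `B` generate subgroups of the multiplicative group of `ℚ` with trivial intersection,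
then `K = K_A` or `K = K_B` is good: for every real `t ≠ 0` (for instance `t = ζ(3)`) all of the
numbers `t π^k`, `k ∈ ℤ`, with at most one exception are transcendental over `K`; for every real
`t` (for instance Euler's constant) all of the numbers `t + x π`, `x` algebraic over `K`, with at
most one exception are transcendental over `K`; the only elements of `K` algebraic over `ℚ(π)` are
the rational numbers. So one of `ζ(3)`, `ζ(3) / π³` is transcendental over `K`, and if `ζ(3)` is
algebraic over `ℚ(π)`, in particular if `ζ(3)` or `ζ(3) / π³` is algebraic, then `ζ(3)` is not in `K`.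

(2) For every `S` all the bases `b`, apart from the bases multiplicatively dependent on one base `c`,
have this property, for the field generated by the real numbers with `O(n)` different blocks of
`n` digits, `n ∈ S`, in some base multiplicatively dependent on `b`.

(3) If `b` and `c` are multiplicatively independent, then the largest one of the four numbers of
different blocks of `n` digits of `ζ(3)` and of `ζ(3) / π³` in the bases `b` and `c`, divided by
`n`, tends to infinity. If `ζ(3)` is algebraic over `ℚ(π)`, in particular if `ζ(3)` or `ζ(3) / π³`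
is algebraic, this holds for the two numbers of blocks of `ζ(3)` alone.
-/

namespace Pool.Agent.Results.MP_e48a95_nt.DigitsInTwoBases

open Filter

/-- the digit of index `n + 1` after the point in the base `b` expansion of `x` -/
noncomputable def digit (b : ℕ) (x : ℝ) (n : ℕ) : ℤ := ⌊x * (b : ℝ) ^ (n + 1)⌋ % (b : ℤ)

/-- the number of different blocks of `n` consecutive digits (after the point) of `x` in base `b` -/
noncomputable def blocks (b : ℕ) (x : ℝ) (n : ℕ) : ℕ :=
  (Set.range fun i => fun j : Fin n => digit b x (i + j)).ncard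

/-- the field generated by all real numbers which in some base `b ∈ A` have at most `C n` different
blocks of `n` digits for all `n ∈ S`; `b` and `C` may depend on the number. It contains `ℚ`. -/
noncomputable def lowField (S A : Set ℕ) : Subfield ℝ :=
  Subfield.closure {x | ∃ b ∈ A, ∃ C : ℝ, ∀ n ∈ S, (blocks b x n : ℝ) ≤ C * n}

/-- the subgroup of the multiplicative group of `ℚ` generated by `A` -/
def group (A : Set ℕ) : Subgroup ℚˣ := Subgroup.closure {u | ∃ b ∈ A, ((u : ℚˣ) : ℚ) = b}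

/-- multiplicatively independent bases -/
def Independent (b c : ℕ) : Prop := ∀ k l : ℕ, b ^ k = c ^ l → k = 0 ∧ l = 0

/-- `ζ(3) = ∑ 1 / n³` -/
noncomputable def zeta3 : ℝ := ∑' n : ℕ, 1 / ((n : ℝ) + 1) ^ 3

/-- the number `x` is algebraic over `ℚ(π)` -/
def AlgOverPi (x : ℝ) : Prop := IsAlgebraic (Algebra.adjoin ℤ ({Real.pi} : Set ℝ)) x

/-- the properties of the field `K` -/
structure Good (K : Subfield ℝ) : Prop where
  /-- at most one of the numbers `t π^k`, `k ∈ ℤ`, is algebraic over `K` -/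
  power : ∀ t : ℝ, t ≠ 0 → ∀ j k : ℤ, j ≠ k →
    Transcendental K (t * Real.pi ^ j) ∨ Transcendental K (t * Real.pi ^ k)
  /-- at most one of the numbers `t + x π`, `x` algebraic over `K`, is algebraic over `K` -/
  sum : ∀ t x y : ℝ, IsAlgebraic K x → IsAlgebraic K y → x ≠ y →
    Transcendental K (t + x * Real.pi) ∨ Transcendental K (t + y * Real.pi)
  /-- one of `ζ(3)`, `ζ(3) / π³` is transcendental over `K` -/
  zeta : Transcendental K zeta3 ∨ Transcendental K (zeta3 / Real.pi ^ 3)
  /-- an element of `K` algebraic over `ℚ(π)` is rational -/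
  rational : ∀ x ∈ K, AlgOverPi x → ∃ q : ℚ, x = q
  /-- if `ζ(3)` is algebraic over `ℚ(π)`, then it is not in `K` -/
  notMem : AlgOverPi zeta3 → zeta3 ∉ K

theorem irrational_zeta3 : Irrational zeta3 := by
  rintro ⟨r, hr⟩
  obtain ⟨c, hc, h⟩ := Pool.Agent.W170.Z3.Z_main
  have h1 := h r.num r.den r.den_pos
  have h2 : Pool.Agent.H337R2.zr 3 - (r.num : ℝ) / (r.den : ℝ) = 0 := by
    have h3 : ((r.num : ℝ) / (r.den : ℝ)) = (r : ℝ) := by
      exact_mod_cast (Rat.num_div_den r)
    have h4 : Pool.Agent.H337R2.zr 3 = zeta3 := rfl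
    rw [h3, hr, h4, sub_self]
  rw [h2, abs_zero] at h1
  have h4 : (0 : ℝ) < c / (r.den : ℝ) ^ ((542 : ℝ) / 100) := by
    have : (0 : ℝ) < r.den := by exact_mod_cast r.den_pos
    positivity
  linarith

theorem zeta3_ne : zeta3 ≠ 0 := irrational_zeta3.ne_zero

theorem algOverPi_pi : AlgOverPi Real.pi :=
  isAlgebraic_algebraMap
    (⟨Real.pi, Algebra.subset_adjoin (Set.mem_singleton _)⟩ :
      Algebra.adjoin ℤ ({Real.pi} : Set ℝ))

theorem algOverPi_of {x : ℝ} (h : IsAlgebraic ℚ x) : AlgOverPi x := by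
  have h1 : IsAlgebraic ℤ x := (IsFractionRing.isAlgebraic_iff ℤ ℚ ℝ).2 h
  exact h1.extendScalars (R := ℤ) (S := Algebra.adjoin ℤ ({Real.pi} : Set ℝ))
    (FaithfulSMul.algebraMap_injective ℤ (Algebra.adjoin ℤ ({Real.pi} : Set ℝ)))

theorem algOverPi_zeta3 (h : IsAlgebraic ℚ zeta3 ∨ IsAlgebraic ℚ (zeta3 / Real.pi ^ 3)) :
    AlgOverPi zeta3 := by
  rcases h with h | h
  · exact algOverPi_of h
  · have e : zeta3 = zeta3 / Real.pi ^ 3 * Real.pi ^ 3 := by
      have := Real.pi_ne_zero
      field_simp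
    rw [e]
    exact (algOverPi_of h).mul (algOverPi_pi.pow 3)

theorem good_of {K : Subfield ℝ} (h : Pool.Agent.TH796.AL.Alg.Free K Real.pi) : Good K := by
  have hpow : ∀ t : ℝ, t ≠ 0 → ∀ j k : ℤ, j < k → IsAlgebraic K (t * Real.pi ^ j) →
      IsAlgebraic K (t * Real.pi ^ k) → False := by
    intro t ht j k hjk h1 h2
    apply h.1
    have hp := Real.pi_ne_zero
    obtain ⟨m, hm⟩ : ∃ m : ℕ, k - j = m := ⟨(k - j).toNat, by omega⟩
    have hm0 : 0 < m := by omega
    have e : Real.pi ^ m = (t * Real.pi ^ k) * (t * Real.pi ^ j)⁻¹ := by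
      have h3 : Real.pi ^ k = Real.pi ^ m * Real.pi ^ j := by
        rw [← zpow_natCast, ← hm, ← zpow_add₀ hp]
        congr 1
        ring
      have h4 : t * Real.pi ^ j ≠ 0 := mul_ne_zero ht (zpow_ne_zero _ hp)
      rw [eq_mul_inv_iff_mul_eq₀ h4, h3]
      ring
    have h5 : IsAlgebraic K (Real.pi ^ m) := by
      rw [e]
      exact h2.mul h1.inv
    exact IsAlgebraic.of_pow hm0 h5
  have hp : ∀ t : ℝ, t ≠ 0 → ∀ j k : ℤ, j ≠ k →
      Transcendental K (t * Real.pi ^ j) ∨ Transcendental K (t * Real.pi ^ k) := by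
    intro t ht j k hjk
    by_contra hcon
    unfold Transcendental at hcon
    push Not at hcon
    rcases lt_or_gt_of_ne hjk with h1 | h1
    · exact hpow t ht j k h1 hcon.1 hcon.2
    · exact hpow t ht k j h1 hcon.2 hcon.1
  have hrat : ∀ x ∈ K, AlgOverPi x → ∃ q : ℚ, x = q := by
    intro x hx hxa
    by_contra hq
    have hirr : Irrational x := by
      rintro ⟨q, hq'⟩
      exact hq ⟨q, hq'.symm⟩
    exact h.2 x hirr hxa hx
  refine ⟨hp, ?_, ?_, hrat, ?_⟩
  · intro t x y hx hy hxy
    by_contra hcon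
    unfold Transcendental at hcon
    push Not at hcon
    obtain ⟨h1, h2⟩ := hcon
    apply h.1
    have hd : x - y ≠ 0 := sub_ne_zero.2 hxy
    have e : Real.pi = ((t + x * Real.pi) - (t + y * Real.pi)) * (x - y)⁻¹ := by
      rw [eq_mul_inv_iff_mul_eq₀ hd]
      ring
    rw [e]
    exact (h1.sub h2).mul (hx.sub hy).inv
  · have h1 := hp zeta3 zeta3_ne 0 (-3) (by norm_num)
    have e0 : zeta3 * Real.pi ^ (0 : ℤ) = zeta3 := by rw [zpow_zero, mul_one]
    have e3 : zeta3 * Real.pi ^ (-3 : ℤ) = zeta3 / Real.pi ^ 3 := by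
      rw [div_eq_mul_inv, zpow_neg]
      norm_cast
    rwa [e0, e3] at h1
  · intro h1 h2
    obtain ⟨q, hq⟩ := hrat _ h2 h1
    exact irrational_zeta3 ⟨q, hq.symm⟩

theorem mem_lowField {S A : Set ℕ} {b : ℕ} (hb : b ∈ A) {x : ℝ} {C : ℝ}
    (h : ∀ n ∈ S, (blocks b x n : ℝ) ≤ C * n) : x ∈ lowField S A :=
  Subfield.subset_closure ⟨b, hb, C, h⟩

theorem not_transc {K : Subfield ℝ} {x : ℝ} (h : x ∈ K) : ¬ Transcendental K x := by
  intro h1
  exact h1 (isAlgebraic_algebraMap (⟨x, h⟩ : K))

/-- if `f n / n` does not tend to infinity then `f n ≤ C n` on an infinite set -/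
theorem exists_set {f : ℕ → ℕ} (h : ¬ Tendsto (fun n : ℕ => (f n : ℝ) / n) atTop atTop) :
    ∃ S : Set ℕ, S.Infinite ∧ ∃ C : ℝ, ∀ n ∈ S, (f n : ℝ) ≤ C * n := by
  rw [tendsto_atTop] at h
  push Not at h
  obtain ⟨C, hC⟩ := h
  refine ⟨{n : ℕ | 1 ≤ n ∧ (f n : ℝ) / n < C}, ?_, C, ?_⟩
  · rw [← Nat.frequently_atTop_iff_infinite]
    exact (hC.and_eventually (eventually_ge_atTop 1)).mono fun n hn => ⟨hn.2, hn.1⟩
  · rintro n ⟨hn1, hn2⟩
    have hn0 : (0:ℝ) < n := by exact_mod_cast hn1
    exact ((div_lt_iff₀ hn0).1 hn2).le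

/-- **`ζ(3)`, `ζ(3) / π³` and numbers of low digit complexity.** See the text at the beginning of
the file. -/
theorem result :
    (IsAlgebraic ℚ zeta3 ∨ IsAlgebraic ℚ (zeta3 / Real.pi ^ 3) → AlgOverPi zeta3) ∧
    (∀ S : Set ℕ, S.Infinite → ∀ A B : Set ℕ, (∀ b ∈ A, 2 ≤ b) → (∀ b ∈ B, 2 ≤ b) →
      group A ⊓ group B = ⊥ → Good (lowField S A) ∨ Good (lowField S B)) ∧
    (∀ S : Set ℕ, S.Infinite → ∃ c : ℕ, 2 ≤ c ∧ ∀ b : ℕ, 2 ≤ b → Independent b c →
      Good (lowField S {d | 2 ≤ d ∧ ¬ Independent d b})) ∧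
    (∀ b c : ℕ, 2 ≤ b → 2 ≤ c → Independent b c →
      Tendsto (fun n : ℕ => ((max
        (max (blocks b zeta3 n) (blocks b (zeta3 / Real.pi ^ 3) n))
        (max (blocks c zeta3 n) (blocks c (zeta3 / Real.pi ^ 3) n)) : ℕ) : ℝ) / n) atTop atTop ∧
      (AlgOverPi zeta3 → Tendsto (fun n : ℕ =>
        ((max (blocks b zeta3 n) (blocks c zeta3 n) : ℕ) : ℝ) / n) atTop atTop)) := by
  have hm : Pool.Agent.TH456.TM.MeasT ((Real.pi : ℝ) : ℂ) :=
    Pool.Agent.TH796.AL.Ai.measT_of (Or.inr (Or.inl rfl))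
  have ht : Transcendental ℚ Real.pi := Pool.Agent.TH796.AL.Alg.transc_of_measT hm
  have hU : ¬ Pool.Agent.TH796.AL.Ai.UNumber Real.pi := Pool.Agent.TH796.AL.Ai.not_unumber hm
  have h1 : ∀ S : Set ℕ, S.Infinite → ∀ A B : Set ℕ, (∀ b ∈ A, 2 ≤ b) → (∀ b ∈ B, 2 ≤ b) →
      group A ⊓ group B = ⊥ → Good (lowField S A) ∨ Good (lowField S B) := by
    intro S hS A B hA hB hAB
    rcases Pool.Agent.TH796.AL.Alg.free_pair ht hU hA hB hAB hS with h | h
    · exact Or.inl (good_of h)
    · exact Or.inr (good_of h)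
  refine ⟨algOverPi_zeta3, h1, fun S hS => ?_, fun b c hb hc hbc => ⟨?_, fun hz => ?_⟩⟩
  · obtain ⟨c, hc, h⟩ := Pool.Agent.TH796.Fin.free_cls ht hU hS
    exact ⟨c, hc, fun b hb hbc => good_of (h b hb hbc)⟩
  · by_contra hcon
    obtain ⟨S, hS, C, hC⟩ := exists_set (f := fun n => max
        (max (blocks b zeta3 n) (blocks b (zeta3 / Real.pi ^ 3) n))
        (max (blocks c zeta3 n) (blocks c (zeta3 / Real.pi ^ 3) n))) hcon
    have ha : ∀ n ∈ S, (blocks b zeta3 n : ℝ) ≤ C * n := fun n hn =>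
      le_trans (by exact_mod_cast (le_max_left _ _).trans (le_max_left _ _)) (hC n hn)
    have hb' : ∀ n ∈ S, (blocks b (zeta3 / Real.pi ^ 3) n : ℝ) ≤ C * n := fun n hn =>
      le_trans (by exact_mod_cast (le_max_right _ _).trans (le_max_left _ _)) (hC n hn)
    have hc' : ∀ n ∈ S, (blocks c zeta3 n : ℝ) ≤ C * n := fun n hn =>
      le_trans (by exact_mod_cast (le_max_left _ _).trans (le_max_right _ _)) (hC n hn)
    have hd : ∀ n ∈ S, (blocks c (zeta3 / Real.pi ^ 3) n : ℝ) ≤ C * n := fun n hn =>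
      le_trans (by exact_mod_cast (le_max_right _ _).trans (le_max_right _ _)) (hC n hn)
    rcases h1 S hS {b} {c} (by simpa using hb) (by simpa using hc)
      (Pool.Agent.TH796.AL.Ai.group_inf hb hc hbc) with h | h
    · rcases h.zeta with h3 | h3
      · exact not_transc (mem_lowField (Set.mem_singleton b) ha) h3
      · exact not_transc (mem_lowField (Set.mem_singleton b) hb') h3
    · rcases h.zeta with h3 | h3
      · exact not_transc (mem_lowField (Set.mem_singleton c) hc') h3
      · exact not_transc (mem_lowField (Set.mem_singleton c) hd) h3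
  · by_contra hcon
    obtain ⟨S, hS, C, hC⟩ := exists_set (f := fun n =>
      max (blocks b zeta3 n) (blocks c zeta3 n)) hcon
    have ha : ∀ n ∈ S, (blocks b zeta3 n : ℝ) ≤ C * n := fun n hn =>
      le_trans (by exact_mod_cast (le_max_left _ _)) (hC n hn)
    have hc' : ∀ n ∈ S, (blocks c zeta3 n : ℝ) ≤ C * n := fun n hn =>
      le_trans (by exact_mod_cast (le_max_right _ _)) (hC n hn)
    rcases h1 S hS {b} {c} (by simpa using hb) (by simpa using hc)
      (Pool.Agent.TH796.AL.Ai.group_inf hb hc hbc) with h | h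
    · exact h.notMem hz (mem_lowField (Set.mem_singleton b) ha)
    · exact h.notMem hz (mem_lowField (Set.mem_singleton c) hc')

end Pool.Agent.Results.MP_e48a95_nt.DigitsInTwoBases
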