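import Pool.Agent.Y456.DF.LogFinal

/-!
# Solutions of `f(z + 1) - f(z) = z^κ (log z)^J` at points of number fields

Euler's constant and the values of the zeta function and of its derivatives at integers are values at `z = 1` of solutions
of the difference equations `f(z + 1) - f(z) = z^κ (log z)^J`, `κ` an integer, `J ≥ 0`:

* for `κ = -1` the generalised Euler constants (Stieltjes functions) `-γ_J(z)`, with `γ_0(z) = -ψ(z)`, `γ_0(1) = γ`;
* for `κ ≠ -1` the derivatives `(-1)^(J+1) ζ^(J)(-κ, z)` of the Hurwitz zeta function with respect to the first variable: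
  `ζ(3, 1) = ζ(3)`, `ζ'(-2, 1) = -ζ(3) / (4 π^2)`, `ζ'(0, 1) = -log (2 π) / 2`;
* for `κ = 0`, `J = 1` also `log Γ(z)`.

We show that for any analytic solutions on the slit plane, finitely many of these functions, together with `Γ(z)`
and `log z`, `log (z + 1)`, …, `log (z + r - 1)`, satisfy no relation of bounded degree and of height at most `T ^ A`, not
even approximately and relative to arbitrary complex constants, at almost all algebraic points of height at most `T`.
-/

set_option autoImplicit false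

open NumberField

namespace Pool.Agent.Results.MP_e48a95_nt.LogarithmicDifferenceEquations

/-- The numbers `Γ(x_j)`, index `(j, none)`; `f_s(x_j)`, index `(j, some (inl s))`; `log (x_j + i)`, index
`(j, some (inr i))`. -/
noncomputable def values {n N r : ℕ} (f : Fin N → ℂ → ℂ) (x : Fin n → ℂ) (z : Fin n × Option (Fin N ⊕ Fin r)) : ℂ :=
  match z.2 with
  | none => Complex.Gamma (x z.1)
  | some (Sum.inl s) => f s (x z.1)
  | some (Sum.inr i) => Complex.log (x z.1 + ((i : ℕ) : ℂ))

/-- The elements of the number field `F` with image in `L` which are quotients of two integers of `F` all of whose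
conjugates have absolute value at most `T`. -/
def Points (F : Type) [Field F] [NumberField F] (ι : F →+* ℂ) (L : Set ℂ) (T : ℝ) : Set F :=
  {x | ι x ∈ L ∧ ∃ a b : 𝓞 F, b ≠ 0 ∧ (∀ φ : F →+* ℂ, ‖φ a‖ ≤ T ∧ ‖φ b‖ ≤ T) ∧ x = a / b}

/-- The `n`-tuples `x` of points of `F` for which there is a polynomial `P` of degree at most `d` in each of
`n (1 + N + r)` variables, with coefficients of the form `∑ ξ_i ι(c_i)`, where the `c_i` are integers of `F` all of whose
conjugates have absolute value at most `T ^ A`, such that the value of `P` at the numbers `values` is at most `T ^ (-B)`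
times the absolute value of some nonzero coefficient of `P`. -/
def Exceptional (n r d : ℕ) {N g : ℕ} (f : Fin N → ℂ → ℂ) (F : Type) [Field F] [NumberField F] (ι : F →+* ℂ)
    (ξ : Fin g → ℂ) (L : Set ℂ) (A B T : ℝ) : Set (Fin n → F) :=
  {x | (∀ j, x j ∈ Points F ι L T) ∧ ∃ P : MvPolynomial (Fin n × Option (Fin N ⊕ Fin r)) ℂ,
    (∀ z, P.degreeOf z ≤ d) ∧
    (∀ s, ∃ c : Fin g → 𝓞 F, (∀ i (φ : F →+* ℂ), ‖φ (c i)‖ ≤ T ^ A) ∧ P.coeff s = ∑ i, ξ i * ι (c i)) ∧
    ∃ s₀, P.coeff s₀ ≠ 0 ∧ ‖MvPolynomial.aeval (values f fun j => ι (x j)) P‖ ≤ T ^ (-B) * ‖P.coeff s₀‖}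

/-- Let `f_1, …, f_N` be analytic functions on `ℂ` without the half-line `(-∞, 0]` with
`f_s(z + 1) = f_s(z) + z^(κ_s) (log z)^(J_s)`, where the pairs `(J_s, κ_s)` are different and `κ_s < 0` if `J_s = 0`.
(1) The functions `z`, `Γ(z)`, `f_1(z)`, …, `f_N(z)`, `log z`, …, `log (z + r - 1)` are algebraically independent over `ℂ`.
(2) Let `L` be a compact subset of the slit plane. For all `m`, `n`, `r`, `g`, `d`, `A` and `ε > 0` there are `B`, `C`, `T₀`
such that for every number field `F` of degree at most `m`, every embedding of `F` in `ℂ`, all complex numbers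
`ξ_1, …, ξ_g` and all `T ≥ T₀` the number of exceptional `n`-tuples is at most `C T^ε M^(n - 1)`, where `M` is the number
of points. -/
theorem result {N : ℕ} (J : Fin N → ℕ) (κ : Fin N → ℤ) (hinj : ∀ s t, J s = J t → κ s = κ t → s = t)
    (hneg : ∀ s, J s = 0 → κ s < 0) (f : Fin N → ℂ → ℂ) (hf : ∀ s, AnalyticOnNhd ℂ (f s) Complex.slitPlane)
    (heq : ∀ s, ∀ z ∈ Complex.slitPlane, f s (z + 1) = f s z + z ^ κ s * Complex.log z ^ J s) :
    (∀ (r : ℕ) (P : MvPolynomial (Option (Option (Fin N ⊕ Fin r))) ℂ),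
      (∀ z ∈ Complex.slitPlane, MvPolynomial.aeval (fun o : Option (Option (Fin N ⊕ Fin r)) =>
        o.elim z fun y => values (n := 1) f (fun _ => z) (0, y)) P = 0) → P = 0) ∧
    ∀ (m n r g d : ℕ) (L : Set ℂ), IsCompact L → L ⊆ Complex.slitPlane → ∀ A ε : ℝ, 0 < ε →
      ∃ B C T₀ : ℝ, ∀ (F : Type) [Field F] [NumberField F], Module.finrank ℚ F ≤ m → ∀ (ι : F →+* ℂ) (ξ : Fin g → ℂ)
        (T : ℝ), T₀ ≤ T → (Exceptional n r d f F ι ξ L A B T).Finite ∧
          ((Exceptional n r d f F ι ξ L A B T).ncard : ℝ) ≤ C * T ^ ε * ((Points F ι L T).ncard : ℝ) ^ (n - 1) := by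
  classical
  have hinj' : Function.Injective fun s => (J s, κ s) := by
    intro s t h
    simp only [Prod.mk.injEq] at h
    exact hinj s t h.1 h.2
  refine ⟨fun r P hP => ?_, fun m n r g d L hL hL' A ε hε => ?_⟩
  · refine Y456.DF.indep_all J κ f hf heq hinj' hneg r P fun z hz => ?_
    have h1 := hP z hz
    rw [MvPolynomial.aeval_eq_eval] at h1
    have h2 : (fun o : Option (Option (Fin N ⊕ Fin r)) => o.elim z fun y => values (n := 1) f (fun _ => z) (0, y)) =
        Y456.DF.val r f z := by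
      funext o
      rcases o with _ | _ | s | i
      · rfl
      · rfl
      · rfl
      · rfl
    rw [h2] at h1
    exact h1
  obtain ⟨B, C, T₀, hC, hT₀, H⟩ := Y456.DF.main J κ f hf heq (h := Fin g) hinj' hneg m n d r L hL hL' A ε hε
  refine ⟨B, C, T₀, fun F _ _ hF ι ξ T hT => ?_⟩
  have hT0 : 0 ≤ T := by linarith
  have hP : Points F ι L T = {x : F | Y120.HtLe F T x ∧ ι x ∈ L} := by
    ext x
    constructor
    · rintro ⟨h1, a, b, hb, hab, hx⟩
      exact ⟨⟨a, b, hb, Y120.house_le F hT0 fun φ => (hab φ).1, Y120.house_le F hT0 fun φ => (hab φ).2, hx⟩, h1⟩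
    · rintro ⟨⟨a, b, hb, ha, hb', hx⟩, h1⟩
      exact ⟨h1, a, b, hb, fun φ => ⟨(Y120.house_ge F _ φ).trans ha, (Y120.house_ge F _ φ).trans hb'⟩, hx⟩
  have hsub : Exceptional n r d f F ι ξ L A B T ⊆
      Y124.ExcNF n d F ι ξ (fun t (i : Option (Fin N ⊕ Fin r)) => Y456.DF.fam r f i t) L A B T := by
    rintro x ⟨hx, P, hPd, hPc, s₀, hs₀, hs⟩
    refine ⟨fun j => ?_, P, hPd, hPc, s₀, hs₀, ?_⟩
    · have h1 := hx j
      rw [hP] at h1
      exact h1
    · have h1 : (fun z : Fin n × Option (Fin N ⊕ Fin r) => Y456.DF.fam r f z.2 (ι (x z.1))) =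
          values f fun j => ι (x j) := by
        funext ⟨j, i⟩
        rcases i with _ | s | i
        · rfl
        · rfl
        · rfl
      rw [h1]
      exact hs
  obtain ⟨h1, h2⟩ := H F hF ι ξ T hT
  refine ⟨h1.subset hsub, ?_⟩
  rw [hP]
  exact le_trans (by exact_mod_cast Set.ncard_le_ncard hsub h1) h2

end Pool.Agent.Results.MP_e48a95_nt.LogarithmicDifferenceEquations
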