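import Pool.Agent.Y39.DH.Alg

/-!
# The digits of `ζ(3) π ^ k`, `γ π ^ k`, `γ + r π ^ k`: at most one exception at each scale

The linear complexity `N_b(x; L)` of the first `L` digits of `x` in base `b` is the least order of
a linear recurrence over `ℚ` satisfied by these digits; it is bounded in `L` if and only if `x` is
rational and it is about `L / 2` for random digits.

Classical argument: if `π` is algebraic over `ℚ(x_1, …, x_J)` then the `x_j` are not all algebraic.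
We prove a version of this for the digits: the linear complexities of the first `L` digits of the
`x_j` cannot all be smaller than `c L - C`, at any scale `L` and in any base. In particular for an
arbitrary real number `t ≠ 0`, for instance `t = ζ(3)` or `t = γ`, at every scale and in every base
at most one of the non-zero numbers `t π ^ l` (`|l| ≤ H`) and `t + r π ^ k` (`1 ≤ k ≤ H`, `r`
rational of height at most `H`) has linear complexity smaller than `c L - C`, and for arbitrary real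
numbers `t₀`, `t₁`, for instance `γ` and `ζ(3)`, at most two of the numbers `t₀ + t₁ π ^ k`,
`k ≤ H`.
-/

set_option autoImplicit false

namespace Pool.Agent.Results.MP_e48a95_nt.OneExceptionPerScale

open Finset Polynomial
open Pool.Agent.Y39.DG Pool.Agent.Y39.DH

/-- the general theorem -/
theorem main {J : ℕ} (x : Fin J → ℝ) (θ : ℝ) (hθ : HasMeasure θ)
    (h : IsAlgebraic (Algebra.adjoin ℤ (Set.range x)) θ) :
    ∃ μ C : ℝ, 1 < μ ∧ 0 < C ∧ ∀ b : ℕ, 2 ≤ b → ∀ L : ℕ,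
      (L : ℝ) ≤ μ * F C (∑ j, complexity b (x j) L) ∧
      ∀ k : ℕ, (L : ℝ) ≤ (∑ i ∈ range (k + 1), μ ^ (i + 1)) * F C (jointComplexity b x k L) := by
  obtain ⟨μ, c0, hμ, hc0, hM⟩ := sim_of_algebraic x θ hθ h
  obtain ⟨C, hC0, hC⟩ := complexities μ c0 hμ hc0 x hM
  exact ⟨μ, C, hμ, hC0, hC⟩

lemma finset_linear (T : Finset ℝ) (θ : ℝ) (hθ : HasMeasure θ)
    (h : IsAlgebraic (Algebra.adjoin ℤ (T : Set ℝ)) θ) :
    ∃ M K : ℝ, 0 ≤ M ∧ 0 ≤ K ∧ ∀ b : ℕ, 2 ≤ b → ∀ L : ℕ,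
      (L : ℝ) ≤ M * (∑ x ∈ T, (complexity b x L : ℝ)) + K := by
  obtain ⟨x, hx⟩ : ∃ x : Fin T.card → ℝ, x = fun j => ((T.equivFin.symm j : T) : ℝ) := ⟨_, rfl⟩
  have hr : Set.range x = (T : Set ℝ) := by
    ext y
    constructor
    · rintro ⟨j, rfl⟩
      rw [hx]
      exact (T.equivFin.symm j).2
    · intro hy
      exact ⟨T.equivFin ⟨y, hy⟩, by rw [hx]; simp⟩
  rw [← hr] at h
  obtain ⟨μ, C, hμ, hC0, hC⟩ := main x θ hθ h
  obtain ⟨K, hK0, hK⟩ := F_linear C 1 hC0 one_pos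
  refine ⟨μ * 2, μ * K, by linarith, by nlinarith, fun b hb L => ?_⟩
  have h1 := (hC b hb L).1
  have h2 := hK (∑ j, complexity b (x j) L)
  have h3 : ((∑ j, complexity b (x j) L : ℕ) : ℝ) = ∑ y ∈ T, (complexity b y L : ℝ) := by
    push_cast
    rw [← Finset.sum_coe_sort T (fun y => (complexity b y L : ℝ)), hx]
    exact Equiv.sum_comp T.equivFin.symm (fun y : T => (complexity b (y : ℝ) L : ℝ))
  rw [h3] at h2
  have h4 := mul_le_mul_of_nonneg_left h2 (by linarith : 0 ≤ μ)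
  linarith

/-- at most `r` exceptions -/
theorem few_exceptions (S : Finset ℝ) (r : ℕ)
    (h : ∀ T ⊆ S, T.card = r + 1 →
      ∃ θ : ℝ, HasMeasure θ ∧ IsAlgebraic (Algebra.adjoin ℤ (T : Set ℝ)) θ) :
    ∃ c C : ℝ, 0 < c ∧ ∀ b : ℕ, 2 ≤ b → ∀ L : ℕ,
      (S.filter fun x => (complexity b x L : ℝ) < c * L - C).card ≤ r := by
  classical
  have h' : ∀ T : Finset ℝ, T ∈ S.powersetCard (r + 1) → ∃ M K : ℝ, 0 ≤ M ∧ 0 ≤ K ∧
      ∀ b : ℕ, 2 ≤ b → ∀ L : ℕ, (L : ℝ) ≤ M * (∑ x ∈ T, (complexity b x L : ℝ)) + K := by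
    intro T hT
    rw [mem_powersetCard] at hT
    obtain ⟨θ, h1, h2⟩ := h T hT.1 hT.2
    exact finset_linear T θ h1 h2
  choose! M K hM hK hMK using h'
  obtain ⟨A, hA⟩ : ∃ A : ℝ, A = 1 + ∑ T ∈ S.powersetCard (r + 1), M T := ⟨_, rfl⟩
  obtain ⟨B, hB⟩ : ∃ B : ℝ, B = ∑ T ∈ S.powersetCard (r + 1), K T := ⟨_, rfl⟩
  have hA1 : 1 ≤ A := by
    rw [hA]
    have : 0 ≤ ∑ T ∈ S.powersetCard (r + 1), M T := Finset.sum_nonneg fun T hT => hM T hT
    linarith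
  have hB0 : 0 ≤ B := by rw [hB]; exact Finset.sum_nonneg fun T hT => hK T hT
  have hr1 : (0 : ℝ) < (r : ℝ) + 1 := by positivity
  refine ⟨1 / (A * (r + 1)), B, by positivity, fun b hb L => ?_⟩
  by_contra hcon
  push Not at hcon
  obtain ⟨T, hTS, hTr⟩ := Finset.exists_subset_card_eq (Nat.succ_le_of_lt hcon)
  have hTm : T ∈ S.powersetCard (r + 1) := by
    rw [mem_powersetCard]
    exact ⟨hTS.trans (Finset.filter_subset _ _), hTr⟩
  have h1 := hMK T hTm b hb L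
  have hMA : M T ≤ A := by
    rw [hA]
    have := Finset.single_le_sum (f := M) (fun T hT => hM T hT) hTm
    linarith
  have hKB : K T ≤ B := by
    rw [hB]
    exact Finset.single_le_sum (f := K) (fun T hT => hK T hT) hTm
  have hsum0 : 0 ≤ ∑ x ∈ T, (complexity b x L : ℝ) := Finset.sum_nonneg fun _ _ => Nat.cast_nonneg _
  have hne : T.Nonempty := by
    rw [← Finset.card_pos, hTr]; omega
  have h2 : ∑ x ∈ T, (complexity b x L : ℝ) < ∑ _x ∈ T, (1 / (A * (r + 1)) * L - B) :=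
    Finset.sum_lt_sum_of_nonempty hne fun x hx => (Finset.mem_filter.mp (hTS hx)).2
  rw [Finset.sum_const, hTr, nsmul_eq_mul] at h2
  push_cast at h2
  have hA0 : 0 < A := by linarith
  have h3 : (L : ℝ) ≤ A * (∑ x ∈ T, (complexity b x L : ℝ)) + B :=
    h1.trans (add_le_add (mul_le_mul_of_nonneg_right hMA hsum0) hKB)
  have h4 : A * (∑ x ∈ T, (complexity b x L : ℝ)) <
      A * (((r : ℝ) + 1) * (1 / (A * (r + 1)) * L - B)) := mul_lt_mul_of_pos_left h2 hA0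
  have h5 : A * (((r : ℝ) + 1) * (1 / (A * (r + 1)) * L - B)) = L - A * (r + 1) * B := by
    field_simp
  rw [h5] at h4
  have h6 : B ≤ A * (r + 1) * B := by
    have h7 : 1 ≤ A * ((r : ℝ) + 1) := by
      have : (0 : ℝ) ≤ r := Nat.cast_nonneg r
      nlinarith
    exact le_mul_of_one_le_left hB0 h7
  linarith

/-- a relation with three terms -/
lemma alg3 {T : Set ℝ} (θ u v w : ℝ) (hu : u ∈ Algebra.adjoin ℤ T) (hv : v ∈ Algebra.adjoin ℤ T)
    (hw : w ∈ Algebra.adjoin ℤ T) (k l : ℕ) (hk : 1 ≤ k) (hl : 1 ≤ l) (hu0 : u ≠ 0)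
    (h : u + v * θ ^ k + w * θ ^ l = 0) : IsAlgebraic (Algebra.adjoin ℤ T) θ := by
  refine ⟨C ⟨u, hu⟩ + C ⟨v, hv⟩ * X ^ k + C ⟨w, hw⟩ * X ^ l, ?_, ?_⟩
  · intro h0
    have h1 := congrArg (fun p => p.coeff 0) h0
    simp only [coeff_add, coeff_C_zero, coeff_C_mul, coeff_X_pow, coeff_zero] at h1
    rw [if_neg (by omega), if_neg (by omega), mul_zero, mul_zero, add_zero, add_zero] at h1
    exact hu0 (congrArg Subtype.val h1)
  · simp only [map_add, map_mul, map_pow, aeval_C, aeval_X]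
    exact h

/-- the numbers `t + r θ ^ k` (`1 ≤ k ≤ H`, `r` rational of height at most `H`) and `t θ ^ l`
(`|l| ≤ H`) -/
def Family (θ t : ℝ) (H : ℕ) : Set ℝ :=
  {x | (∃ (r : ℚ) (k : ℕ), |r.num| ≤ H ∧ r.den ≤ H ∧ 1 ≤ k ∧ k ≤ H ∧ x = t + r * θ ^ k) ∨
    ∃ l : ℤ, |l| ≤ H ∧ x = t * θ ^ l}

lemma family_finite (θ t : ℝ) (H : ℕ) : (Family θ t H).Finite := by
  have h1 : {r : ℚ | |r.num| ≤ H ∧ r.den ≤ H}.Finite := by
    refine ((Finset.Icc (-(H : ℤ)) H ×ˢ Finset.range (H + 1)).image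
      (fun x : ℤ × ℕ => (x.1 : ℚ) / x.2)).finite_toSet.subset ?_
    rintro r ⟨h1, h2⟩
    rw [Finset.mem_coe, mem_image]
    refine ⟨(r.num, r.den), ?_, Rat.num_div_den r⟩
    rw [mem_product, Finset.mem_Icc, mem_range]
    exact ⟨abs_le.mp h1, by omega⟩
  refine (((h1.prod (Set.finite_Icc 0 H)).image fun z : ℚ × ℕ => t + z.1 * θ ^ z.2).union
    ((Set.finite_Icc (-(H : ℤ)) H).image fun l : ℤ => t * θ ^ l)).subset ?_
  rintro x (⟨r, k, h2, h3, h4, h5, rfl⟩ | ⟨l, h2, rfl⟩)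
  · exact Or.inl ⟨(r, k), ⟨⟨h2, h3⟩, ⟨Nat.zero_le _, h5⟩⟩, rfl⟩
  · exact Or.inr ⟨l, abs_le.mp h2, rfl⟩

lemma mem_l {x y : ℝ} : x ∈ Algebra.adjoin ℤ (({x, y} : Set ℝ)) :=
  Algebra.subset_adjoin (by simp)

lemma mem_r {x y : ℝ} : y ∈ Algebra.adjoin ℤ (({x, y} : Set ℝ)) :=
  Algebra.subset_adjoin (by simp)

lemma mem_int {T : Set ℝ} (n : ℤ) : (n : ℝ) ∈ Algebra.adjoin ℤ T := by
  have h := (Algebra.adjoin ℤ T).algebraMap_mem n
  rwa [algebraMap_int_eq, eq_intCast] at h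

/-- `t + r θ ^ k` and `t + s θ ^ l` -/
lemma pair_add (θ t : ℝ) (r s : ℚ) (k l : ℕ) (hk : 1 ≤ k) (hl : 1 ≤ l)
    (hne : t + r * θ ^ k ≠ t + s * θ ^ l) :
    IsAlgebraic (Algebra.adjoin ℤ ({t + r * θ ^ k, t + s * θ ^ l} : Set ℝ)) θ := by
  have hr : (r : ℝ) * r.den = r.num := by exact_mod_cast Rat.mul_den_eq_num r
  have hs : (s : ℝ) * s.den = s.num := by exact_mod_cast Rat.mul_den_eq_num s
  have hr0 : (r.den : ℝ) ≠ 0 := by exact_mod_cast r.den_nz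
  have hs0 : (s.den : ℝ) ≠ 0 := by exact_mod_cast s.den_nz
  obtain ⟨x, hx⟩ : ∃ x, x = t + r * θ ^ k := ⟨_, rfl⟩
  obtain ⟨y, hy⟩ : ∃ y, y = t + s * θ ^ l := ⟨_, rfl⟩
  rw [← hx, ← hy] at hne ⊢
  refine alg3 θ (((r.den * s.den : ℤ) : ℝ) * (x - y)) (((-(r.num * s.den) : ℤ)) : ℝ)
    ((s.num * r.den : ℤ) : ℝ) ?_ (mem_int _) (mem_int _) k l hk hl ?_ ?_
  · exact Subalgebra.mul_mem _ (mem_int _) (Subalgebra.sub_mem _ mem_l mem_r)
  · push_cast
    exact mul_ne_zero (mul_ne_zero hr0 hs0) (sub_ne_zero.mpr hne)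
  · push_cast
    rw [← hr, ← hs, hx, hy]
    ring

/-- `t + r θ ^ k` and `t θ ^ l` -/
lemma pair_mixed (θ t : ℝ) (hθ : θ ≠ 0) (r : ℚ) (k : ℕ) (hk : 1 ≤ k) (l : ℤ)
    (hx0 : t + r * θ ^ k ≠ 0) (hy0 : t * θ ^ l ≠ 0) (hne : t + r * θ ^ k ≠ t * θ ^ l) :
    IsAlgebraic (Algebra.adjoin ℤ ({t + r * θ ^ k, t * θ ^ l} : Set ℝ)) θ := by
  have hr : (r : ℝ) * r.den = r.num := by exact_mod_cast Rat.mul_den_eq_num r
  have hr0 : (r.den : ℝ) ≠ 0 := by exact_mod_cast r.den_nz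
  rcases lt_trichotomy l 0 with h | h | h
  · obtain ⟨n, hn⟩ : ∃ n : ℕ, l = -(n : ℤ) := ⟨(-l).toNat, by omega⟩
    subst hn
    have hn1 : 1 ≤ n := by omega
    rw [zpow_neg, zpow_natCast] at hy0 hne ⊢
    obtain ⟨x, hx⟩ : ∃ x, x = t + r * θ ^ k := ⟨_, rfl⟩
    obtain ⟨y, hy⟩ : ∃ y, y = t * (θ ^ n)⁻¹ := ⟨_, rfl⟩
    have hyt : y * θ ^ n = t := by
      rw [hy, mul_assoc, inv_mul_cancel₀ (pow_ne_zero n hθ), mul_one]
    rw [← hx] at hx0
    rw [← hx, ← hy]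
    refine alg3 θ (((-(r.den : ℤ) : ℤ) : ℝ) * x) (((r.den : ℤ) : ℝ) * y) ((r.num : ℤ) : ℝ)
      (Subalgebra.mul_mem _ (mem_int _) mem_l) (Subalgebra.mul_mem _ (mem_int _) mem_r)
      (mem_int _) n k hn1 hk ?_ ?_
    · push_cast
      exact mul_ne_zero (neg_ne_zero.mpr hr0) hx0
    · push_cast
      rw [← hr, mul_assoc, hyt, hx]
      ring
  · subst h
    have e : t * θ ^ (0 : ℤ) = t + ((0 : ℚ) : ℝ) * θ ^ 1 := by simp
    rw [e] at hne ⊢
    exact pair_add θ t r 0 k 1 hk le_rfl hne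
  · obtain ⟨n, hn⟩ : ∃ n : ℕ, l = (n : ℤ) := ⟨l.toNat, by omega⟩
    subst hn
    have hn1 : 1 ≤ n := by omega
    rw [zpow_natCast] at hy0 hne ⊢
    obtain ⟨x, hx⟩ : ∃ x, x = t + r * θ ^ k := ⟨_, rfl⟩
    obtain ⟨y, hy⟩ : ∃ y, y = t * θ ^ n := ⟨_, rfl⟩
    rw [← hy] at hy0
    rw [← hx, ← hy]
    refine alg3 θ (((-(r.den : ℤ) : ℤ) : ℝ) * y) (((r.den : ℤ) : ℝ) * x) (((-r.num : ℤ)) : ℝ)
      (Subalgebra.mul_mem _ (mem_int _) mem_r) (Subalgebra.mul_mem _ (mem_int _) mem_l)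
      (mem_int _) n (k + n) hn1 (by omega) ?_ ?_
    · push_cast
      exact mul_ne_zero (neg_ne_zero.mpr hr0) hy0
    · push_cast
      rw [← hr, hy, hx]
      ring

/-- `t θ ^ j` and `t θ ^ l` -/
lemma pair_mul (θ t : ℝ) (hθ : θ ≠ 0) (j l : ℤ) (hjl : j < l) (hy0 : t * θ ^ l ≠ 0) :
    IsAlgebraic (Algebra.adjoin ℤ ({t * θ ^ j, t * θ ^ l} : Set ℝ)) θ := by
  obtain ⟨n, hn⟩ : ∃ n : ℕ, l = j + (n : ℤ) := ⟨(l - j).toNat, by omega⟩
  subst hn
  have hn1 : 1 ≤ n := by omega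
  have e : t * θ ^ (j + (n : ℤ)) = t * θ ^ j * θ ^ n := by
    rw [zpow_add₀ hθ, zpow_natCast, mul_assoc]
  obtain ⟨x, hx⟩ : ∃ x, x = t * θ ^ j := ⟨_, rfl⟩
  obtain ⟨y, hy⟩ : ∃ y, y = t * θ ^ (j + (n : ℤ)) := ⟨_, rfl⟩
  rw [← hy] at hy0
  rw [← hx, ← hy]
  have hxy : y = x * θ ^ n := by rw [hy, hx, e]
  refine alg3 θ (((-1 : ℤ) : ℝ) * y) x ((0 : ℤ) : ℝ)
    (Subalgebra.mul_mem _ (mem_int _) mem_r) mem_l (mem_int _) n 1 hn1 le_rfl ?_ ?_
  · push_cast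
    exact mul_ne_zero (by norm_num) hy0
  · push_cast
    rw [hxy]
    ring

lemma hasMeasure_ne_zero {θ : ℝ} (hθ : HasMeasure θ) : θ ≠ 0 := by
  rintro rfl
  obtain ⟨κ, c, hκ, hc, h⟩ := hθ 1
  have h1 := h X X_ne_zero natDegree_X_le 1 le_rfl (fun j => by
    rw [coeff_X]
    split_ifs <;> simp)
  rw [aeval_X, abs_zero, mul_zero] at h1
  linarith

lemma family_pair (θ t : ℝ) (hθ : θ ≠ 0) (H : ℕ) (x y : ℝ) (hx : x ∈ Family θ t H)
    (hy : y ∈ Family θ t H) (hx0 : x ≠ 0) (hy0 : y ≠ 0) (hxy : x ≠ y) :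
    IsAlgebraic (Algebra.adjoin ℤ ({x, y} : Set ℝ)) θ := by
  rcases hx with ⟨r, k, _, _, hk, _, rfl⟩ | ⟨j, _, rfl⟩
  · rcases hy with ⟨s, l, _, _, hl, _, rfl⟩ | ⟨l, _, rfl⟩
    · exact pair_add θ t r s k l hk hl hxy
    · exact pair_mixed θ t hθ r k hk l hx0 hy0 hxy
  · rcases hy with ⟨s, l, _, _, hl, _, rfl⟩ | ⟨l, _, rfl⟩
    · rw [Set.pair_comm]
      exact pair_mixed θ t hθ s l hl j hy0 hx0 hxy.symm
    · rcases lt_trichotomy j l with h | h | h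
      · exact pair_mul θ t hθ j l h hy0
      · exact absurd (by rw [h]) hxy
      · rw [Set.pair_comm]
        exact pair_mul θ t hθ l j h hx0

/-- one exception in the family -/
theorem family_one (θ : ℝ) (hθ : HasMeasure θ) (t : ℝ) (H : ℕ) :
    ∃ c C : ℝ, 0 < c ∧ ∀ b : ℕ, 2 ≤ b → ∀ L : ℕ, ∃ x₀ : ℝ, ∀ x ∈ Family θ t H, x ≠ 0 → x ≠ x₀ →
      c * L - C ≤ (complexity b x L : ℝ) := by
  classical
  obtain ⟨S, hS⟩ : ∃ S : Finset ℝ, S = (family_finite θ t H).toFinset.filter fun x => x ≠ 0 :=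
    ⟨_, rfl⟩
  have hSm : ∀ x, x ∈ S ↔ x ∈ Family θ t H ∧ x ≠ 0 := by
    intro x
    rw [hS, mem_filter, Set.Finite.mem_toFinset]
  obtain ⟨c, C, hc, hC⟩ := few_exceptions S 1 (by
    intro T hT hT2
    obtain ⟨x, y, hxy, rfl⟩ := Finset.card_eq_two.mp hT2
    have hx := (hSm x).mp (hT (by simp))
    have hy := (hSm y).mp (hT (by simp))
    refine ⟨θ, hθ, ?_⟩
    have := family_pair θ t (hasMeasure_ne_zero hθ) H x y hx.1 hy.1 hx.2 hy.2 hxy
    rwa [Finset.coe_pair])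
  refine ⟨c, C, hc, fun b hb L => ?_⟩
  have h1 := hC b hb L
  rw [Finset.card_le_one] at h1
  by_cases hne : ∃ x₀ ∈ S, (complexity b x₀ L : ℝ) < c * L - C
  · obtain ⟨x₀, h2, h3⟩ := hne
    refine ⟨x₀, fun x hx hx0 hxx => ?_⟩
    by_contra hcon
    push Not at hcon
    exact hxx (h1 x (by rw [mem_filter, hSm]; exact ⟨⟨hx, hx0⟩, hcon⟩) x₀
      (by rw [mem_filter]; exact ⟨h2, h3⟩))
  · push Not at hne
    exact ⟨0, fun x hx hx0 _ => hne x ((hSm x).mpr ⟨hx, hx0⟩)⟩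

/-- two exceptions among the numbers `t₀ + t₁ θ ^ k` -/
theorem two_parameters (θ : ℝ) (hθ : HasMeasure θ) (t₀ t₁ : ℝ) (H : ℕ) :
    ∃ c C : ℝ, 0 < c ∧ ∀ b : ℕ, 2 ≤ b → ∀ L : ℕ,
      (((range (H + 1)).image fun k => t₀ + t₁ * θ ^ k).filter
        fun x => (complexity b x L : ℝ) < c * L - C).card ≤ 2 := by
  classical
  refine few_exceptions _ 2 ?_
  intro T hT hT3
  obtain ⟨x, y, z, hxy, hxz, hyz, rfl⟩ := Finset.card_eq_three.mp hT3
  refine ⟨θ, hθ, ?_⟩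
  have key : ∀ i j l : ℕ, i < j → i < l → ∀ x y z : ℝ, x = t₀ + t₁ * θ ^ i →
      y = t₀ + t₁ * θ ^ j → z = t₀ + t₁ * θ ^ l → y ≠ z → ∀ A : Set ℝ, x ∈ A → y ∈ A → z ∈ A →
      IsAlgebraic (Algebra.adjoin ℤ A) θ := by
    intro i j l hij hil x y z hx hy hz hne A hxA hyA hzA
    have mx := Algebra.subset_adjoin (R := ℤ) hxA
    have my := Algebra.subset_adjoin (R := ℤ) hyA
    have mz := Algebra.subset_adjoin (R := ℤ) hzA
    refine alg3 θ (z - y) (x - z) (y - x) (Subalgebra.sub_mem _ mz my)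
      (Subalgebra.sub_mem _ mx mz) (Subalgebra.sub_mem _ my mx) (j - i) (l - i) (by omega)
      (by omega) (sub_ne_zero.mpr hne.symm) ?_
    have ej : θ ^ j = θ ^ i * θ ^ (j - i) := by rw [← pow_add]; congr 1; omega
    have el : θ ^ l = θ ^ i * θ ^ (l - i) := by rw [← pow_add]; congr 1; omega
    rw [hx, hy, hz, ej, el]
    ring
  have hx := hT (show x ∈ ({x, y, z} : Finset ℝ) by simp)
  have hy := hT (show y ∈ ({x, y, z} : Finset ℝ) by simp)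
  have hz := hT (show z ∈ ({x, y, z} : Finset ℝ) by simp)
  rw [mem_image] at hx hy hz
  obtain ⟨i, _, hi⟩ := hx
  obtain ⟨j, _, hj⟩ := hy
  obtain ⟨l, _, hl⟩ := hz
  have hij : i ≠ j := by rintro rfl; exact hxy (by rw [← hi, ← hj])
  have hil : i ≠ l := by rintro rfl; exact hxz (by rw [← hi, ← hl])
  have hjl : j ≠ l := by rintro rfl; exact hyz (by rw [← hj, ← hl])
  have mx : x ∈ (({x, y, z} : Finset ℝ) : Set ℝ) := by simp
  have my : y ∈ (({x, y, z} : Finset ℝ) : Set ℝ) := by simp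
  have mz : z ∈ (({x, y, z} : Finset ℝ) : Set ℝ) := by simp
  rcases lt_or_gt_of_ne hij with h1 | h1
  · rcases lt_or_gt_of_ne hil with h2 | h2
    · exact key i j l h1 h2 x y z hi.symm hj.symm hl.symm hyz _ mx my mz
    · exact key l i j h2 (by omega) z x y hl.symm hi.symm hj.symm hxy _ mz mx my
  · rcases lt_or_gt_of_ne hjl with h2 | h2
    · exact key j i l h1 h2 y x z hj.symm hi.symm hl.symm hxz _ my mx mz
    · exact key l i j (by omega) h2 z x y hl.symm hi.symm hj.symm hxy _ mz mx my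

/-- **Main theorem.** Let `F C m = m + C √((m + 1) log (m + 2))`.

(A) Let the real number `θ` have a transcendence measure of polynomial type in every degree, and
let `θ` be algebraic over `ℤ[x_1, …, x_J]`, `x_j` real. There are `μ > 1` and `C` such that for all
bases `b ≥ 2` and all `L` the sum `m` of the linear complexities of the first `L` digits of the
`x_j` satisfies `L ≤ μ F C m`, and for all `k` the joint `k`-error linear complexity `m` satisfies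
`L ≤ (μ + ⋯ + μ ^ (k + 1)) F C m`. Such `θ` are `e`, `π` and the logarithms of positive rational
numbers other than `1`.

(B) If for every subset `T` of `r + 1` elements of a finite set `S` of real numbers some such `θ`
is algebraic over `ℤ[T]`, then there are `c > 0` and `C` such that in every base and for every `L`
at most `r` elements of `S` have linear complexity smaller than `c L - C`.

(C) For such `θ`, all real `t` and all `H` there are `c > 0` and `C` such that in every base and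
for all `L` all non-zero numbers `t + r θ ^ k` (`1 ≤ k ≤ H`, `r` rational of height at most `H`) and
`t θ ^ l` (`|l| ≤ H`), with at most one exception, have linear complexity at least `c L - C`.

(D) For such `θ` and all real `t₀`, `t₁` at most two of the numbers `t₀ + t₁ θ ^ k`, `k ≤ H`, have
linear complexity smaller than `c L - C`. -/
theorem result :
    (∀ θ : ℝ, HasMeasure θ → ∀ (J : ℕ) (x : Fin J → ℝ),
      IsAlgebraic (Algebra.adjoin ℤ (Set.range x)) θ →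
      ∃ μ C : ℝ, 1 < μ ∧ 0 < C ∧ ∀ b : ℕ, 2 ≤ b → ∀ L : ℕ,
        (L : ℝ) ≤ μ * F C (∑ j, complexity b (x j) L) ∧
        ∀ k : ℕ, (L : ℝ) ≤
          (∑ i ∈ range (k + 1), μ ^ (i + 1)) * F C (jointComplexity b x k L)) ∧
    (HasMeasure (Real.exp 1) ∧ HasMeasure Real.pi ∧
      ∀ q : ℚ, 0 < q → q ≠ 1 → HasMeasure (Real.log q)) ∧
    (∀ (S : Finset ℝ) (r : ℕ), (∀ T ⊆ S, T.card = r + 1 →
        ∃ θ : ℝ, HasMeasure θ ∧ IsAlgebraic (Algebra.adjoin ℤ (T : Set ℝ)) θ) →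
      ∃ c C : ℝ, 0 < c ∧ ∀ b : ℕ, 2 ≤ b → ∀ L : ℕ,
        {x ∈ (S : Set ℝ) | (complexity b x L : ℝ) < c * L - C}.ncard ≤ r) ∧
    (∀ θ : ℝ, HasMeasure θ → ∀ (t : ℝ) (H : ℕ), ∃ c C : ℝ, 0 < c ∧ ∀ b : ℕ, 2 ≤ b → ∀ L : ℕ,
      ∃ x₀ : ℝ, ∀ x ∈ Family θ t H, x ≠ 0 → x ≠ x₀ → c * L - C ≤ (complexity b x L : ℝ)) ∧
    (∀ θ : ℝ, HasMeasure θ → ∀ (t₀ t₁ : ℝ) (H : ℕ), ∃ c C : ℝ, 0 < c ∧ ∀ b : ℕ, 2 ≤ b →
      ∀ L : ℕ, {x : ℝ | (∃ k ≤ H, x = t₀ + t₁ * θ ^ k) ∧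
        (complexity b x L : ℝ) < c * L - C}.ncard ≤ 2) := by
  classical
  refine ⟨fun θ hθ J x h => main x θ hθ h, ⟨hasMeasure_e, hasMeasure_pi, hasMeasure_log⟩,
    fun S r h => ?_, fun θ hθ t H => family_one θ hθ t H, fun θ hθ t₀ t₁ H => ?_⟩
  · obtain ⟨c, C, hc, hC⟩ := few_exceptions S r h
    refine ⟨c, C, hc, fun b hb L => ?_⟩
    have e : {x ∈ (S : Set ℝ) | (complexity b x L : ℝ) < c * L - C} =
        ((S.filter fun x => (complexity b x L : ℝ) < c * L - C : Finset ℝ) : Set ℝ) := by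
      ext x
      simp
    rw [e, Set.ncard_coe_finset]
    exact hC b hb L
  · obtain ⟨c, C, hc, hC⟩ := two_parameters θ hθ t₀ t₁ H
    refine ⟨c, C, hc, fun b hb L => ?_⟩
    have e : {x : ℝ | (∃ k ≤ H, x = t₀ + t₁ * θ ^ k) ∧ (complexity b x L : ℝ) < c * L - C} =
        ((((range (H + 1)).image fun k => t₀ + t₁ * θ ^ k).filter
          fun x => (complexity b x L : ℝ) < c * L - C : Finset ℝ) : Set ℝ) := by
      ext x
      simp only [Set.mem_ofPred_eq, Finset.coe_filter, mem_image, mem_range]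
      constructor
      · rintro ⟨⟨k, hk, rfl⟩, h⟩
        exact ⟨⟨k, by omega, rfl⟩, h⟩
      · rintro ⟨⟨k, hk, rfl⟩, h⟩
        exact ⟨⟨k, by omega, rfl⟩, h⟩
    rw [e, Set.ncard_coe_finset]
    exact hC b hb L

end Pool.Agent.Results.MP_e48a95_nt.OneExceptionPerScale
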